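import Mathlib

/-!
# Non-constant holomorphic maps from curves of genus `⌊(n-1)/2⌋` to `SG_n`, for every `n > 4`

Write `n = 2 k + ε` with `ε = 0` or `1`.  The discriminant of
`λ^ε (λ^(2k) + a λ^k + b)` is a constant times `b^m (a² - 4 b)^k` with `m = k - 1 + 2 ε`.
On the curve `b = w^k`, `a² = 4 w^k + w^(-m)` it is constant, and with `y = a w^j`, `j = ⌈m/2⌉`,
this is the hyperelliptic curve `y² = w^(2j-m) (4 w^(m+k) + 1)`, `w ≠ 0`, of genus `⌊(n-1)/2⌋`.
-/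

set_option autoImplicit false

namespace Pool.Agent.Results.MP_e04167_ag.EveryN

open Polynomial

/-- The monic polynomial `λ^n + z_1 λ^(n-1) + ... + z_n`; the coordinate `z_(i+1)` is `z i`. -/
noncomputable def monicPoly (n : ℕ) (z : Fin n → ℂ) : Polynomial ℂ :=
  X ^ n + ∑ i : Fin n, C (z i) * X ^ (n - 1 - (i : ℕ))

/-- `SG n` is the set of `z` with `z_1 = 0` for which the discriminant
`∏_{i<j} (l_i - l_j)^2` of `monicPoly n z` (with roots `l_1, ..., l_n`) is equal to `1`. -/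
def SG (n : ℕ) : Set (Fin n → ℂ) :=
  {z | (∀ i : Fin n, (i : ℕ) = 0 → z i = 0) ∧
    ∃ l : Fin n → ℂ, monicPoly n z = ∏ i : Fin n, (X - C (l i)) ∧
      ∏ i : Fin n, ∏ j ∈ Finset.Ioi i, (l i - l j) ^ 2 = 1}

/-- The plane curve `y² = f(x)`, without the points with `x = 0`. -/
def curve (f : Polynomial ℂ) : Set (ℂ × ℂ) := {p | p.2 ^ 2 = f.eval p.1 ∧ p.1 ≠ 0}

/-- `f` is squarefree of degree `2 g + 1` or `2 g + 2`.  Then the curve `y² = f(x)` is connected
and non-singular, and its genus is `g`. -/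
def HyperellipticOfGenus (f : Polynomial ℂ) (g : ℕ) : Prop :=
  Squarefree f ∧ (f.natDegree = 2 * g + 1 ∨ f.natDegree = 2 * g + 2)

/-! ### The discriminant as a product of values of the derivative -/

/-- The sign `(-1)^(n(n-1)/2)`. -/
noncomputable def sgn (n : ℕ) : ℂ := ∏ i : Fin n, ∏ _j ∈ Finset.Ioi i, (-1 : ℂ)

theorem sgn_mul_self (n : ℕ) : sgn n * sgn n = 1 := by
  unfold sgn
  rw [← Finset.prod_mul_distrib]
  refine Finset.prod_eq_one fun i _ => ?_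
  rw [← Finset.prod_mul_distrib]
  exact Finset.prod_eq_one fun j _ => by norm_num

theorem sgn_ne_zero (n : ℕ) : sgn n ≠ 0 := by
  intro h
  have := sgn_mul_self n
  rw [h, zero_mul] at this
  exact zero_ne_one this

theorem disc_eq {n : ℕ} (l : Fin n → ℂ) :
    ∏ i : Fin n, ∏ j ∈ Finset.Ioi i, (l i - l j) ^ 2 =
      sgn n * ∏ i : Fin n, eval (l i) (derivative (∏ j : Fin n, (X - C (l j)))) := by
  have h1 : ∀ i : Fin n, eval (l i) (derivative (∏ j : Fin n, (X - C (l j)))) =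
      (∏ j ∈ Finset.Ioi i, (l i - l j)) * ∏ j ∈ Finset.Iio i, (l i - l j) := by
    intro i
    have := Lagrange.eval_nodal_derivative_eval_node_eq (v := l) (Finset.mem_univ i)
    rw [Lagrange.nodal] at this
    rw [this, Lagrange.eval_nodal, ← Finset.prod_union]
    · refine Finset.prod_congr ?_ fun _ _ => rfl
      ext j
      simp [lt_or_lt_iff_ne, ne_comm]
    · rw [Finset.disjoint_left]
      intro j hj hj'
      rw [Finset.mem_Ioi] at hj
      rw [Finset.mem_Iio] at hj'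
      exact lt_asymm hj hj'
  simp_rw [h1]
  rw [Finset.prod_mul_distrib]
  have h2 : ∏ i : Fin n, ∏ j ∈ Finset.Iio i, (l i - l j) =
      sgn n * ∏ i : Fin n, ∏ j ∈ Finset.Ioi i, (l i - l j) := by
    rw [Finset.prod_comm' (t' := Finset.univ) (s' := fun j => Finset.Ioi j) (by simp)]
    unfold sgn
    rw [← Finset.prod_mul_distrib]
    refine Finset.prod_congr rfl fun i _ => ?_
    rw [← Finset.prod_mul_distrib]
    refine Finset.prod_congr rfl fun j _ => by ring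
  rw [h2]
  simp_rw [Finset.prod_pow]
  linear_combination (-(∏ i : Fin n, ∏ j ∈ Finset.Ioi i, (l i - l j)) ^ 2) * sgn_mul_self n

theorem mem_SG_of {n : ℕ} {z : Fin n → ℂ} (hz : ∀ i : Fin n, (i : ℕ) = 0 → z i = 0)
    {ι : Type} [Fintype ι] (hι : Fintype.card ι = n) (ρ : ι → ℂ)
    (hP : monicPoly n z = ∏ a : ι, (X - C (ρ a)))
    (hd : sgn n * ∏ a : ι, eval (ρ a) (derivative (monicPoly n z)) = 1) : z ∈ SG n := by
  classical
  let e : Fin n ≃ ι := (Fintype.equivFinOfCardEq hι).symm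
  have hprod : ∏ i : Fin n, (X - C (ρ (e i))) = monicPoly n z := by
    rw [hP]
    exact Equiv.prod_comp e fun a => X - C (ρ a)
  refine ⟨hz, fun i => ρ (e i), hprod.symm, ?_⟩
  rw [disc_eq, hprod]
  rw [Equiv.prod_comp e fun a => eval (ρ a) (derivative (monicPoly n z))]
  exact hd

/-! ### The family of polynomials -/

/-- The point of `ℂ^n` corresponding to `λ^ε (λ^(2k) + a λ^k + b)`, `n = 2 k + ε`. -/
noncomputable def vec (k n : ℕ) (a b : ℂ) : Fin n → ℂ :=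
  fun i => if (i : ℕ) = k - 1 then a else if (i : ℕ) = 2 * k - 1 then b else 0

theorem monicPoly_vec {k ε : ℕ} (hk : 2 ≤ k) (a b : ℂ) :
    monicPoly (2 * k + ε) (vec k (2 * k + ε) a b) =
      X ^ ε * (X ^ (2 * k) + C a * X ^ k + C b) := by
  unfold monicPoly
  have h1 : ∀ i : Fin (2 * k + ε), C (vec k (2 * k + ε) a b i) * X ^ (2 * k + ε - 1 - (i : ℕ)) =
      (if i = (⟨k - 1, by omega⟩ : Fin (2 * k + ε)) then C a * X ^ (k + ε) else 0) +
      (if i = (⟨2 * k - 1, by omega⟩ : Fin (2 * k + ε)) then C b * X ^ ε else 0) := by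
    intro i
    unfold vec
    rcases eq_or_ne (i : ℕ) (k - 1) with h | h
    · have h' : i = (⟨k - 1, by omega⟩ : Fin (2 * k + ε)) := Fin.ext h
      have h'' : i ≠ (⟨2 * k - 1, by omega⟩ : Fin (2 * k + ε)) := by
        intro hh
        have := congrArg Fin.val hh
        simp only at this
        omega
      rw [if_pos h, if_pos h', if_neg h'', add_zero, h]
      congr 2
      omega
    · have h' : i ≠ (⟨k - 1, by omega⟩ : Fin (2 * k + ε)) := fun hh => h (congrArg Fin.val hh)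
      rw [if_neg h, if_neg h', zero_add]
      rcases eq_or_ne (i : ℕ) (2 * k - 1) with h2 | h2
      · have h2' : i = (⟨2 * k - 1, by omega⟩ : Fin (2 * k + ε)) := Fin.ext h2
        rw [if_pos h2, if_pos h2', h2]
        congr 2
        omega
      · have h2' : i ≠ (⟨2 * k - 1, by omega⟩ : Fin (2 * k + ε)) :=
          fun hh => h2 (congrArg Fin.val hh)
        rw [if_neg h2, if_neg h2', C_0, zero_mul]
  rw [Finset.sum_congr rfl fun i _ => h1 i, Finset.sum_add_distrib, Finset.sum_ite_eq',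
    Finset.sum_ite_eq', if_pos (Finset.mem_univ _), if_pos (Finset.mem_univ _)]
  ring

theorem prod_aux {k : ℕ} (c : ℂ) (x : Fin k → ℂ) (e : ℕ) :
    ∏ i : Fin k, (c * x i ^ e) = c ^ k * (∏ i : Fin k, x i) ^ e := by
  rw [Finset.prod_mul_distrib, Finset.prod_pow, Finset.prod_const, Finset.card_univ,
    Fintype.card_fin]

theorem mem_SG_vec {k ε : ℕ} (hk : 2 ≤ k) (hε : ε ≤ 1) (a b : ℂ)
    (h : sgn (2 * k + ε) * ((k : ℂ) ^ (2 * k) * (-1) ^ k * b ^ (k - 1 + 2 * ε) *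
      (a ^ 2 - 4 * b) ^ k) = 1) : vec k (2 * k + ε) a b ∈ SG (2 * k + ε) := by
  have hk0 : k ≠ 0 := by omega
  obtain ⟨s, hs⟩ := IsAlgClosed.exists_pow_nat_eq (a ^ 2 - 4 * b) (n := 2) (by norm_num)
  obtain ⟨u1, u2, hu1, hsum, hprod⟩ : ∃ u1 u2 : ℂ, u1 - u2 = s ∧ u1 + u2 = -a ∧ u1 * u2 = b :=
    ⟨(-a + s) / 2, (-a - s) / 2, by ring, by ring, by linear_combination (-1 / 4) * hs⟩
  obtain ⟨α, hα⟩ := IsAlgClosed.exists_pow_nat_eq u1 (n := k) (by omega)
  obtain ⟨β, hβ⟩ := IsAlgClosed.exists_pow_nat_eq u2 (n := k) (by omega)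
  have hζ : IsPrimitiveRoot (Complex.exp (2 * Real.pi * Complex.I / k)) k :=
    Complex.isPrimitiveRoot_exp k hk0
  set ζ := Complex.exp (2 * Real.pi * Complex.I / k) with hζdef
  have hfac1 : (X ^ k - C u1 : ℂ[X]) = ∏ i : Fin k, (X - C (ζ ^ (i : ℕ) * α)) := by
    rw [X_pow_sub_C_eq_prod hζ (by omega) hα]
    exact Finset.prod_range fun i => (X - C (ζ ^ i * α) : ℂ[X])
  have hfac2 : (X ^ k - C u2 : ℂ[X]) = ∏ i : Fin k, (X - C (ζ ^ (i : ℕ) * β)) := by
    rw [X_pow_sub_C_eq_prod hζ (by omega) hβ]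
    exact Finset.prod_range fun i => (X - C (ζ ^ i * β) : ℂ[X])
  have hR : (X ^ (2 * k) + C a * X ^ k + C b : ℂ[X]) = (X ^ k - C u1) * (X ^ k - C u2) := by
    have e1 : (C a : ℂ[X]) = -(C u1 + C u2) := by
      rw [← C_add, hsum, C_neg, neg_neg]
    have e2 : (C b : ℂ[X]) = C u1 * C u2 := by rw [← C_mul, hprod]
    rw [e1, e2]
    ring
  let ρ : (Fin k ⊕ Fin k) ⊕ Fin ε → ℂ := Sum.elim
    (Sum.elim (fun i => ζ ^ (i : ℕ) * α) (fun i => ζ ^ (i : ℕ) * β)) (fun _ => 0)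
  have hP : monicPoly (2 * k + ε) (vec k (2 * k + ε) a b) =
      X ^ ε * ((X ^ k - C u1) * (X ^ k - C u2)) := by
    rw [monicPoly_vec hk, hR]
  refine mem_SG_of (fun i hi => ?_) (by simp; ring) ρ ?_ ?_
  · simp only [vec, hi]
    rw [if_neg (by omega), if_neg (by omega)]
  · rw [hP, Fintype.prod_sum_type, Fintype.prod_sum_type]
    simp only [ρ, Sum.elim_inl, Sum.elim_inr]
    rw [← hfac1, ← hfac2]
    simp
    ring
  · -- the values of the derivative
    have hder : derivative (X ^ ε * ((X ^ k - C u1) * (X ^ k - C u2)) : ℂ[X]) =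
        derivative (X ^ ε) * ((X ^ k - C u1) * (X ^ k - C u2)) +
        X ^ ε * (C (k : ℂ) * X ^ (k - 1) * (X ^ k - C u2) +
          (X ^ k - C u1) * (C (k : ℂ) * X ^ (k - 1))) := by
      have hk' : derivative (X ^ k : ℂ[X]) = C (k : ℂ) * X ^ (k - 1) := derivative_X_pow k
      rw [derivative_mul, derivative_mul, derivative_sub, derivative_sub, hk',
        derivative_C, derivative_C, sub_zero]
    have hv1 : ∀ x : ℂ, x ^ k = u1 → eval x (derivative (monicPoly (2 * k + ε)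
        (vec k (2 * k + ε) a b))) = k * (u1 - u2) * x ^ (k - 1 + ε) := by
      intro x hx
      rw [hP, hder]
      simp only [eval_add, eval_mul, eval_sub, eval_pow, eval_X, eval_C, hx]
      rw [pow_add]
      ring
    have hv2 : ∀ x : ℂ, x ^ k = u2 → eval x (derivative (monicPoly (2 * k + ε)
        (vec k (2 * k + ε) a b))) = k * (u2 - u1) * x ^ (k - 1 + ε) := by
      intro x hx
      rw [hP, hder]
      simp only [eval_add, eval_mul, eval_sub, eval_pow, eval_X, eval_C, hx]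
      rw [pow_add]
      ring
    have hv3 : ∏ _i : Fin ε, eval 0 (derivative (monicPoly (2 * k + ε)
        (vec k (2 * k + ε) a b))) = b ^ ε := by
      rw [Finset.prod_const, Finset.card_univ, Fintype.card_fin]
      rcases Nat.le_one_iff_eq_zero_or_eq_one.1 hε with h0 | h1
      · subst h0; simp
      · subst h1
        congr 1
        rw [hP, hder]
        simp [hk0]
        linear_combination hprod
    have hpow : ∀ x : ℂ, ∀ i : Fin k, (ζ ^ (i : ℕ) * x) ^ k = x ^ k := by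
      intro x i
      rw [mul_pow, ← pow_mul, mul_comm (i : ℕ) k, pow_mul, hζ.pow_eq_one, one_pow, one_mul]
    have hR0 : (∏ i : Fin k, (ζ ^ (i : ℕ) * α)) * ∏ i : Fin k, (ζ ^ (i : ℕ) * β) = b := by
      have e1 := congrArg (eval 0) hfac1
      have e2 := congrArg (eval 0) hfac2
      simp only [eval_sub, eval_pow, eval_X, eval_C, eval_prod, zero_sub, zero_pow hk0,
        Finset.prod_neg, Finset.card_univ, Fintype.card_fin] at e1 e2
      have e3 : ((-1 : ℂ) ^ k) * (-1) ^ k = 1 := by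
        rw [← mul_pow]; norm_num
      calc (∏ i : Fin k, (ζ ^ (i : ℕ) * α)) * ∏ i : Fin k, (ζ ^ (i : ℕ) * β)
          = (((-1 : ℂ) ^ k) * (-1) ^ k) * ((∏ i : Fin k, (ζ ^ (i : ℕ) * α)) *
            ∏ i : Fin k, (ζ ^ (i : ℕ) * β)) := by rw [e3, one_mul]
        _ = (((-1 : ℂ) ^ k) * ∏ i : Fin k, (ζ ^ (i : ℕ) * α)) *
            (((-1 : ℂ) ^ k) * ∏ i : Fin k, (ζ ^ (i : ℕ) * β)) := by ring
        _ = b := by rw [← e1, ← e2, ← hprod]; ring
    rw [Fintype.prod_sum_type, Fintype.prod_sum_type]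
    simp only [ρ, Sum.elim_inl, Sum.elim_inr]
    rw [hv3, Finset.prod_congr rfl fun i _ => hv1 _ ((hpow α i).trans hα),
      Finset.prod_congr rfl fun i _ => hv2 _ ((hpow β i).trans hβ), prod_aux, prod_aux]
    rw [← h]
    congr 1
    have e4 : (a ^ 2 - 4 * b) ^ k = ((u1 - u2) * (u1 - u2)) ^ k := by
      rw [hu1, ← hs, sq]
    have e5 : ((k : ℂ) * (u2 - u1)) ^ k = (-1) ^ k * ((k : ℂ) * (u1 - u2)) ^ k := by
      rw [← mul_pow]; ring
    rw [e4, e5]
    calc ((k : ℂ) * (u1 - u2)) ^ k * (∏ i : Fin k, (ζ ^ (i : ℕ) * α)) ^ (k - 1 + ε) *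
          ((-1) ^ k * ((k : ℂ) * (u1 - u2)) ^ k *
            (∏ i : Fin k, (ζ ^ (i : ℕ) * β)) ^ (k - 1 + ε)) * b ^ ε
        = ((k : ℂ) * (u1 - u2)) ^ k * ((-1) ^ k * ((k : ℂ) * (u1 - u2)) ^ k) *
          ((∏ i : Fin k, (ζ ^ (i : ℕ) * α)) * ∏ i : Fin k, (ζ ^ (i : ℕ) * β)) ^ (k - 1 + ε) *
            b ^ ε := by rw [mul_pow (∏ i : Fin k, (ζ ^ (i : ℕ) * α))]; ring
      _ = _ := by
        rw [hR0, mul_pow, mul_pow (u1 - u2)]
        have e6 : b ^ (k - 1 + 2 * ε) = b ^ (k - 1 + ε) * b ^ ε := by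
          rw [← pow_add]; congr 1; ring
        rw [e6, two_mul, pow_add (k : ℂ)]
        ring

/-! ### The curve -/

/-- The polynomial `x^δ (4 x^N + 1)`. -/
noncomputable def pol (δ N : ℕ) : ℂ[X] := X ^ δ * (C 4 * X ^ N + 1)

theorem squarefree_pol {δ N : ℕ} (hδ : δ ≤ 1) (hN : 1 ≤ N) : Squarefree (pol δ N) := by
  have h1 : (C 4 * X ^ N + 1 : ℂ[X]).Separable := by
    have h2 : (X ^ N - C (-1 / 4) : ℂ[X]).Separable :=
      separable_X_pow_sub_C _ (by exact_mod_cast (by omega : N ≠ 0)) (by norm_num)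
    have h3 : (C 4 * X ^ N + 1 : ℂ[X]) = C 4 * (X ^ N - C (-1 / 4)) := by
      rw [mul_sub, ← C_mul]
      norm_num
    rw [h3]
    exact h2.unit_mul (isUnit_C.2 (by norm_num))
  rcases Nat.le_one_iff_eq_zero_or_eq_one.1 hδ with h0 | h0
  · subst h0
    unfold pol
    rw [pow_zero, one_mul]
    exact h1.squarefree
  · subst h0
    unfold pol
    rw [pow_one]
    refine (separable_X.mul h1 ?_).squarefree
    obtain ⟨N, rfl⟩ : ∃ M, N = M + 1 := ⟨N - 1, by omega⟩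
    exact ⟨-(C 4 * X ^ N), 1, by ring⟩

theorem natDegree_pol {δ N : ℕ} (hN : 1 ≤ N) : (pol δ N).natDegree = δ + N := by
  have h : (C 4 * X ^ N + 1 : ℂ[X]).natDegree = N := by
    have : (1 : ℂ[X]) = C 1 := C_1.symm
    rw [this, natDegree_add_C, natDegree_C_mul_X_pow _ _ (by norm_num)]
  have h0 : (C 4 * X ^ N + 1 : ℂ[X]) ≠ 0 := by
    intro h0
    rw [h0, natDegree_zero] at h
    omega
  unfold pol
  rw [natDegree_mul (pow_ne_zero _ X_ne_zero) h0, h, natDegree_X_pow]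

/-- **The conjecture fails for every `n > 4`.**  For every `n > 4` there is an affine hyperelliptic
curve `y² = f(x)`, `x ≠ 0`, of genus `g = ⌊(n-1)/2⌋ < (n-1)(n-2)/2` with a non-constant holomorphic
map to `SG n`. -/
theorem result : ∀ n : ℕ, 4 < n → (n - 1) / 2 < (n - 1) * (n - 2) / 2 ∧
    ∃ f : ℂ[X], HyperellipticOfGenus f ((n - 1) / 2) ∧
      ∃ F : ℂ × ℂ → (Fin n → ℂ), DifferentiableOn ℂ F {p | p.1 ≠ 0} ∧
        (∀ p ∈ curve f, F p ∈ SG n) ∧ ∃ p ∈ curve f, ∃ q ∈ curve f, F p ≠ F q := by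
  intro n hn
  refine ⟨?_, ?_⟩
  · have h1 : (n - 1) * 3 ≤ (n - 1) * (n - 2) := Nat.mul_le_mul_left _ (by omega)
    omega
  obtain ⟨k, ε, hε, rfl⟩ : ∃ k ε : ℕ, ε ≤ 1 ∧ n = 2 * k + ε :=
    ⟨n / 2, n % 2, by omega, by omega⟩
  have hk : 2 ≤ k := by omega
  obtain ⟨m, hm⟩ : ∃ m, m = k - 1 + 2 * ε := ⟨_, rfl⟩
  obtain ⟨j, δ, hδ, hjm⟩ : ∃ j δ : ℕ, δ ≤ 1 ∧ 2 * j = m + δ :=
    ⟨(m + 1) / 2, m % 2, by omega, by omega⟩
  have hk0 : (k : ℂ) ≠ 0 := by exact_mod_cast (by omega : k ≠ 0)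
  -- the scaling factor
  obtain ⟨t, ht⟩ := IsAlgClosed.exists_pow_nat_eq
    ((sgn (2 * k + ε) * ((k : ℂ) ^ (2 * k) * (-1) ^ k))⁻¹) (n := 2 * k * (m + k))
    (by positivity)
  have hc : sgn (2 * k + ε) * ((k : ℂ) ^ (2 * k) * (-1) ^ k) ≠ 0 :=
    mul_ne_zero (sgn_ne_zero _) (mul_ne_zero (pow_ne_zero _ hk0) (pow_ne_zero _ (by norm_num)))
  have ht0 : t ≠ 0 := by
    rintro rfl
    rw [zero_pow (by positivity)] at ht
    exact inv_ne_zero hc ht.symm
  refine ⟨pol δ (m + k), ⟨squarefree_pol hδ (by omega), ?_⟩, fun p =>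
    vec k (2 * k + ε) (t ^ k * (p.2 / p.1 ^ j)) (t ^ (2 * k) * p.1 ^ k), ?_, ?_, ?_⟩
  · rw [natDegree_pol (by omega)]
    rcases Nat.le_one_iff_eq_zero_or_eq_one.1 hε with h0 | h0 <;> subst h0 <;> omega
  · rw [differentiableOn_pi]
    intro i
    unfold vec
    split_ifs
    · intro p hp
      refine DifferentiableAt.differentiableWithinAt ?_
      have hp' : p.1 ^ j ≠ 0 := pow_ne_zero _ hp
      fun_prop (disch := exact hp')
    · fun_prop
    · fun_prop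
  · rintro ⟨w, y⟩ ⟨hy, hw⟩
    simp only at hy hw
    refine mem_SG_vec hk hε _ _ ?_
    rw [← hm]
    have hy2 : y ^ 2 = w ^ δ * (4 * w ^ (m + k) + 1) := by
      rw [hy]
      simp [pol]
    have hwj : w ^ j * w ^ j = w ^ m * w ^ δ := by
      rw [← pow_add, ← pow_add]; congr 1; omega
    have hwm : w ^ m ≠ 0 := pow_ne_zero _ hw
    have hwj0 : w ^ j ≠ 0 := pow_ne_zero _ hw
    have hwd : w ^ δ ≠ 0 := pow_ne_zero _ hw
    have hv : (t ^ k * (y / w ^ j)) ^ 2 - 4 * (t ^ (2 * k) * w ^ k) = t ^ (2 * k) * (w ^ m)⁻¹ := by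
      have e1 : (y / w ^ j) ^ 2 = 4 * w ^ k + (w ^ m)⁻¹ := by
        rw [div_pow, hy2, sq (w ^ j), hwj, pow_add]
        field_simp
      rw [mul_pow, e1, ← pow_mul, mul_comm k 2]
      ring
    rw [hv, mul_pow, mul_pow (t ^ (2 * k)) ((w ^ m)⁻¹)]
    have e2 : (w ^ k) ^ m * ((w ^ m)⁻¹) ^ k = 1 := by
      rw [inv_pow, ← pow_mul, ← pow_mul, mul_comm k m]
      exact mul_inv_cancel₀ (pow_ne_zero _ hw)
    have e3 : (t ^ (2 * k)) ^ m * (t ^ (2 * k)) ^ k = t ^ (2 * k * (m + k)) := by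
      rw [← pow_add, ← pow_mul]
    calc sgn (2 * k + ε) * ((k : ℂ) ^ (2 * k) * (-1) ^ k * ((t ^ (2 * k)) ^ m * (w ^ k) ^ m) *
          ((t ^ (2 * k)) ^ k * ((w ^ m)⁻¹) ^ k))
        = (sgn (2 * k + ε) * ((k : ℂ) ^ (2 * k) * (-1) ^ k)) *
          ((t ^ (2 * k)) ^ m * (t ^ (2 * k)) ^ k) * ((w ^ k) ^ m * ((w ^ m)⁻¹) ^ k) := by ring
      _ = 1 := by rw [e2, e3, ht, mul_one, mul_inv_cancel₀ hc]
  · obtain ⟨y1, hy1⟩ := IsAlgClosed.exists_pow_nat_eq (eval 1 (pol δ (m + k))) (n := 2)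
      (by norm_num)
    obtain ⟨y2, hy2⟩ := IsAlgClosed.exists_pow_nat_eq (eval 2 (pol δ (m + k))) (n := 2)
      (by norm_num)
    refine ⟨(1, y1), ⟨hy1, one_ne_zero⟩, (2, y2), ⟨hy2, two_ne_zero⟩, fun h => ?_⟩
    have := congrFun h ⟨2 * k - 1, by omega⟩
    have h5 : ¬ (2 * k - 1 = k - 1) := by omega
    simp only [vec, if_neg h5, if_true, one_pow, mul_one] at this
    have h2 : (2 : ℂ) ^ k = 1 := by
      have h3 : t ^ (2 * k) ≠ 0 := pow_ne_zero _ ht0
      exact mul_left_cancel₀ h3 (by rw [← this, mul_one])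
    have h4 : (2 : ℕ) ^ k = 1 := by exact_mod_cast h2
    have := Nat.one_lt_two_pow (n := k) (by omega)
    omega

end Pool.Agent.Results.MP_e04167_ag.EveryN
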